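import Pool.Agent.Work.MP_db9399_xf_helper62.XFrame

/-!
# MP_db9399, all scales, SELP part 1 (helper59): facts on pieces, signed sums, covering vertices
-/

set_option autoImplicit false

namespace Pool.Agent.Work.MP_db9399_slp_helper59

open Finset Classical
open Pool.Agent.Work.MP_db9399_all (nb)
open Pool.Agent.Work.MP_db9399_lt (us)
open Pool.Agent.Work.MP_db9399_da hiding qV
open Pool.Agent.Work.MP_db9399_xf

universe u

variable {V : Type u} [Fintype V] {N J : ℕ}

theorem mem_nb {G : SimpleGraph V} {v w : V} : w ∈ nb G v ↔ G.Adj v w := by simp [nb]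

theorem mem_pV {P : Pcs V N} {n : Fin N} {v : V} : v ∈ pV P n ↔ v ∉ P.V0 ∧ P.pc v = n := by
  unfold pV
  simp

theorem mem_sV {P : Pcs V N} {n : Fin N} {β : Bool} {v : V} :
    v ∈ sV P n β ↔ v ∉ P.V0 ∧ P.pc v = n ∧ P.sd v = β := by
  unfold sV
  simp

theorem mem_qV {X : XD V N J} {n : Fin N} {β i : Bool} {v : V} :
    v ∈ qV X n β i ↔ v ∉ X.P.V0 ∧ X.P.pc v = n ∧ X.P.sd v = β ∧ X.P.pt v = i := by
  unfold qV
  rw [mem_filter, mem_sV]
  tauto

theorem qV_sub {X : XD V N J} {n : Fin N} {β i : Bool} : qV X n β i ⊆ pV X.P n := by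
  intro v hv
  rw [mem_qV] at hv
  rw [mem_pV]
  exact ⟨hv.1, hv.2.1⟩

theorem sV_sub {P : Pcs V N} {n : Fin N} {β : Bool} : sV P n β ⊆ pV P n := by
  intro v hv
  rw [mem_sV] at hv
  rw [mem_pV]
  exact ⟨hv.1, hv.2.1⟩

theorem nb_xt (G : SimpleGraph V) (X : XD V N J) {v : V} (hv : InT X Ty.N v ∨ InT X Ty.B v) :
    nb (xt G X) v = nb (thin G X.P) v := by
  ext w
  rw [mem_nb, mem_nb]
  constructor
  · exact fun h => h.1
  · refine fun h => ⟨h, fun h' => ?_⟩
    have h1 := h'.1.1.2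
    rcases hv with hv | hv
    · have h2 := hv.2
      rw [h1] at h2
      exact absurd h2 (by decide)
    · have h2 := hv.2
      rw [h1] at h2
      exact absurd h2 (by decide)

/-- the quarter inside the type of the piece -/
theorem qtr_map (X : XD V N J) (n : Fin N) (β i : Bool) :
    (qtr (sdn X.P n) (ptn X.P n) β i).map (Function.Embedding.subtype _) = qV X n β i := by
  ext v
  rw [mem_qV]
  simp only [mem_map, Function.Embedding.subtype_apply, Subtype.exists, exists_and_right,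
    exists_eq_right]
  constructor
  · rintro ⟨h, hv⟩
    unfold qtr at hv
    rw [mem_filter] at hv
    exact ⟨h.1, h.2, hv.2.1, hv.2.2⟩
  · rintro ⟨h1, h2, h3, h4⟩
    refine ⟨⟨h1, h2⟩, ?_⟩
    unfold qtr
    rw [mem_filter]
    exact ⟨mem_univ _, h3, h4⟩

/-- sums of signed numbers -/
theorem sum_sgp {U : Type u} [Fintype U] (F : U → Finset ℕ) (sd pt : U → Bool) (i : Bool) (m : ℕ)
    (hF : ∀ v, F v ⊆ range m) : ∑ b ∈ range m, sgp F sd pt i b =
      (∑ v ∈ qtr sd pt false i, ((F v).card : ℤ)) - ∑ v ∈ qtr sd pt true i, ((F v).card : ℤ) := by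
  have key : ∀ S : Finset U, ∑ b ∈ range m, ((S ∩ us F b).card : ℤ) = ∑ v ∈ S, ((F v).card : ℤ) := by
    intro S
    have h1 : ∀ b, ((S ∩ us F b).card : ℤ) = ∑ v ∈ S, if b ∈ F v then 1 else 0 := by
      intro b
      rw [← sum_filter, sum_const, nsmul_eq_mul, mul_one]
      congr 2
      ext v
      simp [us]
    simp only [h1]
    rw [sum_comm]
    refine sum_congr rfl fun v _ => ?_
    rw [← sum_filter, sum_const, nsmul_eq_mul, mul_one]
    congr 2
    ext b
    rw [mem_filter]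
    exact ⟨fun h => h.2, fun h => ⟨hF v h, h⟩⟩
  unfold sgp
  rw [sum_sub_distrib, key, key]

theorem Ft_sub {G : SimpleGraph V} {X : XD V N J} {t : V → V → ℕ} {d : ℕ}
    (hlt : ∀ v w, (xt G X).Adj v w → t v w < d + 2) (v : V) : Ft (xt G X) t v ⊆ range (d + 2) := by
  intro b hb
  unfold Ft at hb
  rw [mem_image] at hb
  obtain ⟨w, hw, rfl⟩ := hb
  rw [mem_range]
  exact hlt v w (mem_nb.1 hw)

theorem Ft_card {G : SimpleGraph V} {X : XD V N J} {t : V → V → ℕ}
    (hinj : ∀ v, Set.InjOn (t v) (nb (xt G X) v : Set V)) (v : V) :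
    (Ft (xt G X) t v).card = (nb (xt G X) v).card := by
  unfold Ft
  exact card_image_of_injOn (hinj v)

/-- sums of signed numbers in a piece of type N or B -/
theorem sum_piece {G : SimpleGraph V} {X : XD V N J} {t : V → V → ℕ} {d : ℕ}
    (hlt : ∀ v w, (xt G X).Adj v w → t v w < d + 2)
    (hinj : ∀ v, Set.InjOn (t v) (nb (xt G X) v : Set V)) {n : Fin N}
    (hn : X.P.ty n = Ty.N ∨ X.P.ty n = Ty.B) (i : Bool) :
    ((∑ b ∈ range (d + 2), sgp (Fp (xt G X) X t n) (sdn X.P n) (ptn X.P n) i b : ℤ) : ℝ) =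
      ∑ v ∈ qV X n false i, ((nb (thin G X.P) v).card : ℝ) -
        ∑ v ∈ qV X n true i, ((nb (thin G X.P) v).card : ℝ) := by
  have hF : ∀ v, Fp (xt G X) X t n v ⊆ range (d + 2) := fun v => Ft_sub hlt v.1
  rw [sum_sgp _ _ _ _ _ hF]
  have key : ∀ β, ((∑ v ∈ qtr (sdn X.P n) (ptn X.P n) β i, ((Fp (xt G X) X t n v).card : ℤ) : ℤ) :
      ℝ) = ∑ v ∈ qV X n β i, ((nb (thin G X.P) v).card : ℝ) := by
    intro β
    push_cast
    rw [← qtr_map, sum_map]
    refine sum_congr rfl fun v hv => ?_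
    have h1 : InT X Ty.N v.1 ∨ InT X Ty.B v.1 := by
      unfold InT
      rw [v.2.2]
      exact hn.imp (fun h => ⟨v.2.1, h⟩) fun h => ⟨v.2.1, h⟩
    have h2 : (Fp (xt G X) X t n v).card = (nb (xt G X) v.1).card := Ft_card hinj v.1
    rw [h2, nb_xt G X h1]
    rfl
  rw [Int.cast_sub, key, key]

/-- the cluster of a vertex contains its piece -/
theorem pV_card {C g z θk θ' η a : ℝ} {M : ℕ} {S : Fin J → Scl} {G : SimpleGraph V} {d : ℕ}
    {X : XD V N J} (h : PcD C g z θk θ' η a M S G d X) (hC : 0 ≤ C) (n : Fin N) :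
    ((pV X.P n).card : ℝ) ≤ C * d := by
  by_cases hne : (pV X.P n).Nonempty
  · obtain ⟨v, hv⟩ := hne
    rw [mem_pV] at hv
    obtain ⟨k, hk⟩ := Option.ne_none_iff_exists'.1 (h.cln v hv.1)
    refine le_trans ?_ (h.clc k)
    have h1 : pV X.P n ⊆ univ.filter (fun v => X.cq v = some k) := by
      intro w hw
      rw [mem_pV] at hw
      rw [mem_filter]
      refine ⟨mem_univ _, ?_⟩
      rw [h.clp w v hw.1 hv.1 (hw.2.trans hv.2.symm), hk]
    exact_mod_cast card_le_card h1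
  · rw [not_nonempty_iff_eq_empty] at hne
    rw [hne]
    simp only [card_empty, Nat.cast_zero]
    positivity

/-- sides of a nonempty piece of type B -/
theorem side_large {C g z θk θ' η a : ℝ} {M : ℕ} {S : Fin J → Scl} {G : SimpleGraph V} {d : ℕ}
    {X : XD V N J} (h : PcD C g z θk θ' η a M S G d X) {n : Fin N} (hn : X.P.ty n = Ty.B)
    (hne : (pV X.P n).Nonempty) (β : Bool) :
    (1 - (S (X.sc n)).ζ) * d ≤ ((sV X.P n β).card : ℝ) := by
  obtain ⟨v, hv⟩ := hne
  rw [mem_pV] at hv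
  have h1 : InT X Ty.B v := ⟨hv.1, by rw [hv.2]; exact hn⟩
  have h2 := h.thd v (Or.inr h1)
  rw [hv.2] at h2
  have h3 : nb G v ⊆ nb (thin G X.P) v ∪ sV X.P n (!(X.P.sd v)) := by
    intro w hw
    rw [mem_nb] at hw
    rw [mem_union, mem_nb, mem_sV]
    by_cases hb : (bulk G X.P).Adj v w
    · right
      refine ⟨hb.2.2.1, hb.2.2.2.1.symm.trans hv.2, ?_⟩
      have h4 := hb.2.2.2.2 (by rw [hv.2]; exact hn)
      cases h5 : X.P.sd v <;> cases h6 : X.P.sd w <;> simp_all
    · left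
      exact ⟨hw, hb⟩
  have h4 := (card_le_card h3).trans (card_union_le _ _)
  rw [h.reg v] at h4
  have h5 : (d : ℝ) ≤ ((nb (thin G X.P) v).card : ℝ) + ((sV X.P n (!(X.P.sd v))).card : ℝ) := by
    exact_mod_cast h4
  have h6 : ∀ β β', (sV X.P n β).card = (sV X.P n β').card := by
    intro β β'
    have h7 := h.bE n hn
    cases β <;> cases β' <;> simp [h7]
  rw [h6 β (!(X.P.sd v))]
  linarith

/-- number of the own colours of covering vertices -/
theorem cvc_card {C g z θk θ' η a : ℝ} {M : ℕ} {S : Fin J → Scl} {G : SimpleGraph V} {d : ℕ}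
    {X : XD V N J} (h : PcD C g z θk θ' η a M S G d X) {n : Fin N} (c : V → ℕ) (hd : 0 < d)
    (hζ : (S (X.sc n)).ζ ≤ 1 / 4) (hne : (pV X.P n).Nonempty) :
    ((Cvc G X d c n).card : ℝ) ≤ (S (X.sc n)).θ * d + 2 * a * d := by
  have hdp : (0 : ℝ) < d := by exact_mod_cast hd
  obtain ⟨v, hv0⟩ := hne
  have hne : (pV X.P n).Nonempty := ⟨v, hv0⟩
  have hv := mem_pV.1 hv0
  set A := univ.filter (fun w => w ∈ X.P.V0 ∧ X.cq w = X.cq v) with hA
  set B := univ.filter (fun w => (∃ β, Cvr G X d n β w) ∧ X.cq w ≠ X.cq v) with hB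
  have h1 : ((Cvc G X d c n).card : ℝ) ≤ (A.card : ℝ) + B.card := by
    have h2 : (univ.filter (fun w => ∃ β, Cvr G X d n β w)) ⊆ A ∪ B := by
      intro w hw
      rw [mem_filter] at hw
      rw [mem_union, hA, hB, mem_filter, mem_filter]
      by_cases hq : X.cq w = X.cq v
      · left
        obtain ⟨β, hβ⟩ := hw.2
        exact ⟨mem_univ _, hβ.1, hq⟩
      · right
        exact ⟨mem_univ _, hw.2, hq⟩
    have h3 : (Cvc G X d c n).card ≤ (A ∪ B).card := card_image_le.trans (card_le_card h2)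
    exact_mod_cast h3.trans (card_union_le _ _)
  have h2 : (A.card : ℝ) ≤ (S (X.sc n)).θ * d := by
    have := h.v0c v hv.1
    rw [hv.2] at this
    exact this
  have h3 : (B.card : ℝ) * ((d : ℝ) / 2) ≤ a * (d : ℝ) ^ 2 := by
    refine le_trans ?_ (h.xs n)
    have h4 : ∀ w ∈ B, (d : ℝ) / 2 ≤ ((nb G w ∩ pV X.P n).card : ℝ) := by
      intro w hw
      rw [hB, mem_filter] at hw
      obtain ⟨-, ⟨β, hβ⟩, -⟩ := hw
      have h5 := hβ.2.2
      have h6 := side_large h hβ.2.1 hne β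
      have h7 : (sV X.P n β).card ≤ (sV X.P n β \ nb G w).card + (nb G w ∩ pV X.P n).card := by
        rw [← card_sdiff_add_card_inter (sV X.P n β) (nb G w)]
        refine Nat.add_le_add_left (card_le_card ?_) _
        intro x hx
        rw [mem_inter] at hx ⊢
        exact ⟨hx.2, sV_sub hx.1⟩
      have h8 : ((sV X.P n β).card : ℝ) ≤ ((sV X.P n β \ nb G w).card : ℝ) +
        ((nb G w ∩ pV X.P n).card : ℝ) := by exact_mod_cast h7
      have h9 : (1 - 1 / 4) * (d : ℝ) ≤ (1 - (S (X.sc n)).ζ) * d :=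
        mul_le_mul_of_nonneg_right (by linarith) hdp.le
      linarith
    have h5 : (∑ w ∈ B, (nb G w ∩ pV X.P n).card) ≤
        ∑ v ∈ pV X.P n, ((nb G v).filter (fun w => X.cq w ≠ X.cq v)).card := by
      have h6 : ∀ w, (nb G w ∩ pV X.P n).card = ∑ x ∈ pV X.P n, if G.Adj w x then 1 else 0 := by
        intro w
        rw [← sum_filter, sum_const, smul_eq_mul, mul_one]
        congr 1
        ext x
        rw [mem_inter, mem_filter, mem_nb]
        tauto
      simp only [h6]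
      rw [sum_comm]
      refine sum_le_sum fun x hx => ?_
      rw [← sum_filter, sum_const, smul_eq_mul, mul_one]
      refine card_le_card fun w hw => ?_
      rw [mem_filter] at hw
      rw [mem_filter, mem_nb]
      refine ⟨hw.2.symm, ?_⟩
      have h7 := hw.1
      rw [hB, mem_filter] at h7
      rw [mem_pV] at hx
      rw [h.clp x v hx.1 hv.1 (hx.2.trans hv.2.symm)]
      exact h7.2.2
    calc (B.card : ℝ) * ((d : ℝ) / 2) = ∑ _w ∈ B, (d : ℝ) / 2 := by rw [sum_const, nsmul_eq_mul]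
      _ ≤ ∑ w ∈ B, ((nb G w ∩ pV X.P n).card : ℝ) := sum_le_sum h4
      _ = ((∑ w ∈ B, (nb G w ∩ pV X.P n).card : ℕ) : ℝ) := by push_cast; rfl
      _ ≤ _ := by exact_mod_cast h5
  have h4 : (B.card : ℝ) ≤ 2 * a * d := by
    have h5 : (B.card : ℝ) * d ≤ (2 * a * d) * d := by nlinarith
    exact le_of_mul_le_mul_right h5 hdp
  linarith

/-- signed numbers: sum of the absolute values -/
theorem l1_piece {l x y q C : ℝ} {S : Fin J → Scl} {G : SimpleGraph V} {d : ℕ} {X : XD V N J}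
    {A : PalX} {t : V → V → ℕ} (h : NuX l x y q S G d X A t) (hd : 1 ≤ d) {n : Fin N}
    (hn : X.P.ty n = Ty.N ∨ X.P.ty n = Ty.B) (hx1 : x ≤ 1)
    (hp : ((pV X.P n).card : ℝ) ≤ C * d) (i : Bool) :
    ∑ b ∈ range (d + 2), |((sgp (Fp (xt G X) X t n) (sdn X.P n) (ptn X.P n) i b : ℤ) : ℝ)| ≤
      (12 + C) * d := by
  have hd1 : (1 : ℝ) ≤ d := by exact_mod_cast hd
  have h1 := h.exc n hn i
  have h2 : ∀ y : ℝ, y ≤ 4 + max (y - 4) 0 := by
    intro y
    have := le_max_left (y - 4) 0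
    linarith
  have h3 : ∑ b ∈ range (d + 2), |((sgp (Fp (xt G X) X t n) (sdn X.P n) (ptn X.P n) i b : ℤ) : ℝ)| ≤
      ∑ b ∈ range (d + 2), (4 + max (|((sgp (Fp (xt G X) X t n) (sdn X.P n) (ptn X.P n) i b : ℤ) :
        ℝ)| - 4) 0) := sum_le_sum fun b _ => h2 _
  rw [sum_add_distrib, sum_const, card_range, nsmul_eq_mul] at h3
  push_cast at h3
  have h4 : x * ((pV X.P n).card : ℝ) ≤ C * d := by
    have h5 : (0 : ℝ) ≤ (pV X.P n).card := Nat.cast_nonneg _
    nlinarith
  nlinarith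

/-- good colours of `A.Q j` for a piece of type B -/
theorem good_B {q κ0 : ℝ} (Q Bk : Finset ℕ) (z : ℕ → ℤ) (side d : ℕ) (hd : 0 < d)
    (hq : q ≤ 1 / 200)
    (hneg : ∑ b ∈ Q, max (-((z b : ℤ) : ℝ)) 0 ≤ (3 / 5 + q * side / d) * Q.card)
    (hQ : κ0 * d ≤ (Q.card : ℝ)) (hB : (Bk.card : ℝ) ≤ κ0 / 4 * d) :
    κ0 / 20 * d ≤ (((Q \ Bk).filter fun b => -(side : ℝ) ≤ 10 * d * ((z b : ℤ) : ℝ)).card : ℝ) := by
  have hdp : (0 : ℝ) < d := by exact_mod_cast hd
  have hs0 : (0 : ℝ) ≤ side := Nat.cast_nonneg _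
  set T := (side : ℝ) / (10 * d) with hT
  have hT0 : 0 ≤ T := by positivity
  set M := max 1 T with hM
  have hM1 : 1 ≤ M := le_max_left _ _
  have hMT : T ≤ M := le_max_right _ _
  set bad := Q.filter fun b => ¬ -(side : ℝ) ≤ 10 * d * ((z b : ℤ) : ℝ) with hbad
  have h1 : (bad.card : ℝ) * M ≤ (3 / 5 + q * side / d) * Q.card := by
    refine le_trans ?_ hneg
    calc (bad.card : ℝ) * M = ∑ _b ∈ bad, M := by rw [sum_const, nsmul_eq_mul]
      _ ≤ ∑ b ∈ bad, max (-((z b : ℤ) : ℝ)) 0 := by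
        refine sum_le_sum fun b hb => ?_
        have h2 := (mem_filter.1 hb).2
        push Not at h2
        refine le_trans ?_ (le_max_left _ _)
        have h3 : ((z b : ℤ) : ℝ) < 0 := by
          by_contra hcon
          push Not at hcon
          have : 0 ≤ 10 * d * ((z b : ℤ) : ℝ) := by positivity
          linarith
        have h4 : z b < 0 := by exact_mod_cast h3
        have h5 : z b ≤ -1 := by omega
        have h6 : ((z b : ℤ) : ℝ) ≤ -1 := by exact_mod_cast h5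
        refine max_le (by linarith) ?_
        rw [hT, div_le_iff₀ (by positivity)]
        linarith
      _ ≤ _ := sum_le_sum_of_subset_of_nonneg (filter_subset _ _) fun _ _ _ => le_max_right _ _
  have h2 : q * side / d ≤ M / 20 := by
    have h3 : q * side / d ≤ 1 / 200 * side / d := by
      apply div_le_div_of_nonneg_right _ hdp.le
      exact mul_le_mul_of_nonneg_right hq hs0
    have h4 : 1 / 200 * (side : ℝ) / d = T / 20 := by
      rw [hT]
      field_simp
      ring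
    rw [h4] at h3
    linarith
  have h3 : (bad.card : ℝ) ≤ 13 / 20 * Q.card := by
    have hQ0 : (0 : ℝ) ≤ Q.card := Nat.cast_nonneg _
    have h4 : (bad.card : ℝ) * M ≤ (13 / 20 * Q.card) * M := by
      refine h1.trans ?_
      have h5 : 3 / 5 + q * side / d ≤ 13 / 20 * M := by linarith
      calc (3 / 5 + q * side / d) * (Q.card : ℝ) ≤ (13 / 20 * M) * Q.card :=
            mul_le_mul_of_nonneg_right h5 hQ0
        _ = _ := by ring
    exact le_of_mul_le_mul_right h4 (by linarith)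
  have h4 : (Q.card : ℝ) ≤ ((((Q \ Bk).filter fun b => -(side : ℝ) ≤ 10 * d * ((z b : ℤ) :
      ℝ)).card : ℝ) + bad.card) + Bk.card := by
    have h5 : Q ⊆ (((Q \ Bk).filter fun b => -(side : ℝ) ≤ 10 * d * ((z b : ℤ) : ℝ)) ∪ bad) ∪ Bk := by
      intro b hb
      simp only [mem_union, mem_filter, mem_sdiff, hbad]
      tauto
    have h6 := (card_le_card h5).trans ((card_union_le _ _).trans
      (Nat.add_le_add_right (card_union_le _ _) _))
    exact_mod_cast h6
  nlinarith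

end Pool.Agent.Work.MP_db9399_slp_helper59
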