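import Pool.Agent.Work.MP_db9399_slp_helper59.Sel1
import Pool.Agent.Work.MP_db9399_iv_helper38.SELX

/-!
# MP_db9399, all scales, SELP part 2 (helper59): one piece
-/

set_option autoImplicit false

namespace Pool.Agent.Work.MP_db9399_slp_helper59

open Finset Classical
open Pool.Agent.Work.MP_db9399_all (nb)
open Pool.Agent.Work.MP_db9399_lt (us)
open Pool.Agent.Work.MP_db9399_da hiding qV
open Pool.Agent.Work.MP_db9399_xf
open Pool.Agent.Work.MP_db9399_iv_helper38 (SelN selx)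

universe u

section weights
variable {V : Type u} {N J : ℕ}

/-- colours of the class `l` -/
noncomputable def cl (d : ℕ) (Q : Bool → Finset ℕ) (P2 : Finset ℕ) (l : Bool) : Finset ℕ :=
  if l then P2 else P1 d Q P2

theorem cls_eq (d : ℕ) (Qn : Fin N → Bool → Finset ℕ) (P2n : Fin N → Finset ℕ) (n : Fin N)
    (l : Bool) : cls d Qn P2n n l = cl d (Qn n) (P2n n) l := rfl

variable [Fintype V]

theorem Te_xt {G : SimpleGraph V} {X : XD V N J} {v w : V} (h : Te G X v w) : (xt G X).Adj v w := by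
  refine ⟨h.1, fun h' => ?_⟩
  have h1 := h'.1.1.2
  have h2 := h.2.1.2
  rw [h1] at h2
  exact absurd h2 (by decide)

theorem nT_swap {G : SimpleGraph V} {X : XD V N J} {t : V → V → ℕ} (hs : ∀ v w, t v w = t w v)
    (b : ℕ) (q q' : Finset V) (D : Finset ℕ) : nT G X t b q q' D = nT G X t b q' q D := by
  unfold nT
  refine card_nbij' Prod.swap Prod.swap ?_ ?_ ?_ ?_
  · rintro ⟨v, w⟩ h
    simp only [coe_filter, mem_product, Set.mem_ofPred_eq, Prod.fst_swap, Prod.snd_swap] at h ⊢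
    exact ⟨⟨h.1.2, h.1.1⟩, ⟨h.2.1.1.symm, h.2.1.2.2, h.2.1.2.1⟩, h.2.2.2.1, h.2.2.1,
      by rw [← hs]; exact h.2.2.2.2⟩
  · rintro ⟨v, w⟩ h
    simp only [coe_filter, mem_product, Set.mem_ofPred_eq, Prod.fst_swap, Prod.snd_swap] at h ⊢
    exact ⟨⟨h.1.2, h.1.1⟩, ⟨h.2.1.1.symm, h.2.1.2.2, h.2.1.2.1⟩, h.2.2.2.1, h.2.2.1,
      by rw [← hs]; exact h.2.2.2.2⟩
  · intro x _
    simp
  · intro x _
    simp

theorem nT_big {G : SimpleGraph V} {X : XD V N J} {t : V → V → ℕ} {d : ℕ}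
    (hlt : ∀ v w, (xt G X).Adj v w → t v w < d + 2) {b : ℕ} (hb : d + 2 ≤ b)
    (q q' : Finset V) (D : Finset ℕ) : nT G X t b q q' D = nT G X t (d + 2) q q' D := by
  have h1 : ∀ v (b' : ℕ), d + 2 ≤ b' → b' ∉ Ft (xt G X) t v := by
    intro v b' hb' h
    have := mem_range.1 (Ft_sub hlt v h)
    omega
  unfold nT
  congr 1
  ext x
  simp only [mem_filter, h1 x.1 b hb, h1 x.2 b hb, h1 x.1 (d + 2) le_rfl, h1 x.2 (d + 2) le_rfl]

theorem nT_one {G : SimpleGraph V} {X : XD V N J} {t : V → V → ℕ}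
    (hinj : ∀ v, Set.InjOn (t v) (nb (xt G X) v : Set V)) (b b' : ℕ) (q q' : Finset V) :
    nT G X t b q q' {b'} ≤ q.card := by
  unfold nT
  refine card_le_card_of_injOn (fun x => x.1) ?_ ?_
  · intro x hx
    simp only [coe_filter, mem_product, Set.mem_ofPred_eq] at hx
    exact hx.1.1
  · rintro ⟨v, w⟩ hx ⟨v', w'⟩ hy hxy
    simp only [coe_filter, mem_product, Set.mem_ofPred_eq, mem_singleton] at hx hy hxy
    subst hxy
    have h1 := hinj v (mem_coe.2 (mem_nb.2 (Te_xt hx.2.1))) (mem_coe.2 (mem_nb.2 (Te_xt hy.2.1)))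
      (hx.2.2.2.2.trans hy.2.2.2.2.symm)
    rw [h1]

theorem nT_mono {G : SimpleGraph V} {X : XD V N J} {t : V → V → ℕ} (b : ℕ) (q q' : Finset V)
    {D D' : Finset ℕ} (h : D ⊆ D') : nT G X t b q q' D ≤ nT G X t b q q' D' := by
  unfold nT
  refine card_le_card fun x hx => ?_
  rw [mem_filter] at hx ⊢
  exact ⟨hx.1, hx.2.1, hx.2.2.1, hx.2.2.2.1, h hx.2.2.2.2⟩

/-- weight of a colour -/
noncomputable def wt (G : SimpleGraph V) (X : XD V N J) (t : V → V → ℕ) (K R : Finset ℕ) (b : ℕ)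
    (q q' : Finset V) (b' : ℕ) : ℝ :=
  if b' ∈ K then 0 else if b' ∈ R then (nT G X t b q q' {b'} : ℝ) else 0

theorem wt_nonneg (G : SimpleGraph V) (X : XD V N J) (t : V → V → ℕ) (K R : Finset ℕ) (b : ℕ)
    (q q' : Finset V) (b' : ℕ) : 0 ≤ wt G X t K R b q q' b' := by
  unfold wt
  split_ifs
  · exact le_refl _
  · exact Nat.cast_nonneg _
  · exact le_refl _

theorem sum_wt (G : SimpleGraph V) (X : XD V N J) (t : V → V → ℕ) (K R : Finset ℕ) (b : ℕ)
    (q q' : Finset V) (D : Finset ℕ) :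
    ∑ b' ∈ D, wt G X t K R b q q' b' = (nT G X t b q q' ((D ∩ R) \ K) : ℝ) := by
  have h1 : ∑ b' ∈ D, wt G X t K R b q q' b' =
      ∑ b' ∈ (D ∩ R) \ K, (nT G X t b q q' {b'} : ℝ) := by
    rw [← sum_subset (s₁ := (D ∩ R) \ K) (s₂ := D)]
    · refine sum_congr rfl fun b' hb' => ?_
      rw [mem_sdiff, mem_inter] at hb'
      unfold wt
      rw [if_neg hb'.2, if_pos hb'.1.2]
    · intro b' hb'
      exact (mem_inter.1 (mem_sdiff.1 hb').1).1
    · intro b' hb' h'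
      rw [mem_sdiff, mem_inter] at h'
      unfold wt
      by_cases h2 : b' ∈ K
      · rw [if_pos h2]
      · rw [if_neg h2, if_neg fun h3 => h' ⟨⟨hb', h3⟩, h2⟩]
  rw [h1, ← Nat.cast_sum]
  congr 1
  unfold nT
  rw [card_eq_sum_card_fiberwise (f := fun p : V × V => t p.1 p.2) (t := (D ∩ R) \ K)]
  · refine sum_congr rfl fun b' hb' => ?_
    rw [filter_filter]
    congr 1
    ext x
    simp only [mem_filter, mem_singleton]
    constructor
    · rintro ⟨h2, h3, h4, h5, h6⟩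
      exact ⟨h2, ⟨h3, h4, h5, by rw [h6]; exact hb'⟩, h6⟩
    · rintro ⟨h2, ⟨h3, h4, h5, _⟩, h6⟩
      exact ⟨h2, h3, h4, h5, h6⟩
  · intro x hx
    simp only [coe_filter, Set.mem_ofPred_eq] at hx
    exact hx.2.2.2.2

end weights

theorem sgp_zero {U : Type u} [Fintype U] (F : U → Finset ℕ) (sd pt : U → Bool) (i : Bool) (b : ℕ)
    (h : ∀ v, pt v = i → b ∉ F v) : sgp F sd pt i b = 0 := by
  have h1 : ∀ β, qtr sd pt β i ∩ us F b = ∅ := by
    intro β
    rw [eq_empty_iff_forall_notMem]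
    intro v hv
    rw [mem_inter] at hv
    obtain ⟨h2, h3⟩ := hv
    unfold qtr at h2
    unfold us at h3
    rw [mem_filter] at h2 h3
    exact h v h2.2.2 h3.2
  unfold sgp
  rw [h1, h1]
  simp

theorem SmC.symm' {V : Type u} {N J : ℕ} {X : XD V N J} {n m : Fin N} (h : SmC X n m) :
    SmC X m n := by
  obtain ⟨v, w, h1, h2, h3, h4, h5⟩ := h
  exact ⟨w, v, h2, h1, h4, h3, h5.symm⟩

/-- number of the pieces of a cluster -/
theorem smc_card {V : Type u} [Fintype V] {N J : ℕ} {C g z θk θ' η a : ℝ} {M : ℕ} {S : Fin J → Scl}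
    {G : SimpleGraph V} {d : ℕ} {X : XD V N J} (h : PcD C g z θk θ' η a M S G d X) (n : Fin N) :
    Fintype.card {m : Fin N // SmC X n m} ≤ M := by
  by_cases hne : ∃ m, SmC X n m
  · obtain ⟨m0, v, w, h1, -, h3, -, -⟩ := hne
    obtain ⟨k, hk⟩ := Option.ne_none_iff_exists'.1 (h.cln v h1)
    rw [Fintype.card_subtype]
    refine (card_le_card ?_).trans (h.npc k)
    intro m hm
    rw [mem_filter] at hm ⊢
    obtain ⟨-, v', w', g1, g2, g3, g4, g5⟩ := hm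
    refine ⟨mem_univ _, w', g2, g4, ?_⟩
    rw [← g5, h.clp v' v g1 h1 (g3.trans h3.symm), hk]
  · rw [Fintype.card_eq_zero_iff.2 ⟨fun m => hne ⟨m.1, m.2⟩⟩]
    exact Nat.zero_le _

/-- statement of `selx` for one degree -/
def SelxP (π κ κ0 ξ Λ δ : ℝ) (d : ℕ) : Prop :=
  ∀ (τ : Type) [Fintype τ] (G : Bool → Finset ℕ) (Bk Ek : Finset ℕ) (x : Bool → ℕ → ℤ)
      (w : τ → ℕ → ℝ) (W : ℝ),
      (∀ i, G i ⊆ range (d + 2)) → Disjoint (G false) (G true) → (∀ i, Disjoint (G i) Bk) →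
      (∀ i, κ0 / 20 * d ≤ ((G i).card : ℝ)) → Bk ⊆ range (d + 2) → Disjoint Bk Ek →
      (Bk.card : ℝ) ≤ δ * d → (∀ i, ∑ b ∈ Bk, |((x i b : ℤ) : ℝ)| ≤ δ * d) →
      (Ek.card : ℝ) ≤ δ * d → (∀ i, ∑ b ∈ Ek, |((x i b : ℤ) : ℝ)| ≤ δ * d) →
      (∀ i, ∀ b ∈ G i, x i b = 0) →
      (∀ i, ∑ b ∈ range (d + 2), max (|((x i b : ℤ) : ℝ)| - 2 * (d : ℝ) ^ (1 / 100 : ℝ)) 0 ≤
        δ * d) →
      (∀ i, |((∑ b ∈ range (d + 2), x i b : ℤ) : ℝ)| ≤ ξ / 4 * d) →
      (∀ i, ∑ b ∈ range (d + 2), |((x i b : ℤ) : ℝ)| ≤ Λ * d) →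
      (Fintype.card τ : ℝ) ≤ (d : ℝ) ^ (2 : ℝ) → (∀ q, ∀ b < d + 2, 0 ≤ w q b) →
      (∀ q, ∀ b < d + 2, w q b ≤ W) → 0 ≤ W → (∀ q, ∀ b ∈ Bk, w q b = 0) →
      (∀ q, ∀ b ∈ Ek, w q b = 0) →
      ∃ (Qn : Bool → Finset ℕ) (P2 : Finset ℕ), SelN π κ ξ Λ d G Bk Ek x Qn P2 ∧
        (∀ q, π / 4 * ∑ b ∈ range (d + 2), w q b - W * (d : ℝ) ^ (4 / 5 : ℝ) ≤
          ∑ b ∈ P2, w q b) ∧
        ∀ q, 1 / 2 * ∑ b ∈ range (d + 2), w q b - W * (d : ℝ) ^ (4 / 5 : ℝ) ≤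
          ∑ b ∈ range (d + 2) \ (P2 ∪ (Qn false ∪ Qn true)), w q b

/-- Result for one piece. `prev m l`: classes of the earlier pieces. -/
structure StP {V : Type u} [Fintype V] {N J : ℕ} (π κ ξ Λ E : ℝ) (G : SimpleGraph V) (d : ℕ)
    (X : XD V N J) (A : PalX) (t : V → V → ℕ) (c : V → ℕ) (n : Fin N)
    (prev : Fin N → Bool → Finset ℕ) (Q : Bool → Finset ℕ) (P2 : Finset ℕ) : Prop where
  QA : ∀ i, Q i ⊆ A.Q i
  Plt : P2 ⊆ range (d + 2)
  QQ : Disjoint (Q false) (Q true)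
  QP : ∀ i, Disjoint (Q i) P2
  Qc : ∀ i, κ * d ≤ ((Q i).card : ℝ) ∧ ((Q i).card : ℝ) ≤ 2 * κ * d
  Pc : π * d ≤ (P2.card : ℝ) ∧ (P2.card : ℝ) ≤ 2 * π * d
  Bk : ∀ w β, Cvr G X d n β w → X.P.rg w ≠ some (n, false) → c w ∈ P2
  Ek : ∀ w, X.P.rg w = some (n, false) → c w ∉ P2 ∧ ∀ i, c w ∉ Q i
  sm : ∀ i, |((∑ b ∈ Q (!i) ∪ P2, sgp (Fp (xt G X) X t n) (sdn X.P n) (ptn X.P n) i b : ℤ) : ℝ)| ≤
    ξ * d
  l1 : ∀ i, ∑ b ∈ Q (!i) ∪ P2,
    |((sgp (Fp (xt G X) X t n) (sdn X.P n) (ptn X.P n) i b : ℤ) : ℝ)| ≤ (2 * π * Λ + ξ) * d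
  ng : X.P.ty n = Ty.B → ∀ j, ∀ b ∈ Q j, -((sV X.P n false).card : ℝ) ≤
    10 * d * ((sgp (Fp (xt G X) X t n) (sdn X.P n) (ptn X.P n) (!j) b : ℤ) : ℝ)
  t1 : ∀ m, SmC X n m → ∀ β β' i i' b l,
    π / 4 * nT G X t b (qV X n β i) (qV X m β' i') (range (d + 2) \
      (Cvc G X d c n ∪ Cvc G X d c m)) - E ≤
    nT G X t b (qV X n β i) (qV X m β' i') (cl d Q P2 l \ (Cvc G X d c n ∪ Cvc G X d c m))
  t2 : ∀ m, SmC X n m → ∀ β β' i i' b l l',
    π / 4 * nT G X t b (qV X n β i) (qV X m β' i') ((range (d + 2) ∩ prev m l') \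
      (Cvc G X d c n ∪ Cvc G X d c m)) - E ≤
    nT G X t b (qV X n β i) (qV X m β' i') ((cl d Q P2 l ∩ prev m l') \
      (Cvc G X d c n ∪ Cvc G X d c m))

theorem stage {V : Type u} [Fintype V] {N J : ℕ} {πk C g z τ e θk θ' η a : ℝ} {M : ℕ}
    {S : Fin J → Scl} {π κ κ0 ξ δ δ' : ℝ} {G : SimpleGraph V} {d : ℕ}
    {X : XD V N J} {A : PalX} {t : V → V → ℕ} {c : V → ℕ} (hC : 1 ≤ C)
    (hκ0 : κ0 = (1 - 3 * πk) / 100) (hκ0p : 0 < κ0) (hπ : 0 < π) (hπ1 : π ≤ 1 / 100)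
    (hsel : SelxP π κ κ0 ξ (12 + C) δ d) (hd : 1 ≤ d)
    (hM : (M : ℝ) * (48 * (d + 3)) ≤ (d : ℝ) ^ (2 : ℝ)) (hδ' : 0 < δ')
    (hδ1 : δ' * (1000 * (C + 5)) ≤ δ) (hδ2 : δ' ≤ κ0 / 4)
    (hX : PcX C g z θk θ' η a M S G d X) (hA : PalXP πk A d)
    (hR : RgX C a η τ e S G d X A t c) {n : Fin N} (hn : X.P.ty n = Ty.N ∨ X.P.ty n = Ty.B)
    (hε : (S (X.sc n)).ε ≤ ξ / 4) (hζ : (S (X.sc n)).ζ ≤ 1 / 1000) (ha : a ≤ δ)
    (hθ : (S (X.sc n)).θ * d + 2 * a * d ≤ δ' * d) (prev : Fin N → Bool → Finset ℕ) :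
    ∃ (Q : Bool → Finset ℕ) (P2 : Finset ℕ),
      StP π κ ξ (12 + C) (C * d * (d : ℝ) ^ (4 / 5 : ℝ)) G d X A t c n prev Q P2 := by
  have hdp : (0 : ℝ) < d := by exact_mod_cast (show 0 < d by omega)
  have hC0 : 0 ≤ C := by linarith
  have hC5 : 1 ≤ 1000 * (C + 5) := by linarith
  have hδ1' : δ' ≤ δ := by nlinarith
  obtain ⟨x, hx⟩ : ∃ x : Bool → ℕ → ℤ,
    x = sgp (Fp (xt G X) X t n) (sdn X.P n) (ptn X.P n) := ⟨_, rfl⟩
  obtain ⟨Bk, hBk⟩ : ∃ Bk : Finset ℕ, Bk = (univ.filter (fun w => (∃ β, Cvr G X d n β w) ∧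
    X.P.rg w ≠ some (n, false))).image c := ⟨_, rfl⟩
  obtain ⟨Ek, hEk⟩ : ∃ Ek : Finset ℕ, Ek = (univ.filter (fun w =>
    X.P.rg w = some (n, false))).image c := ⟨_, rfl⟩
  -- false rigid vertices are covering
  have hfr : ∀ w, X.P.rg w = some (n, false) → Cvr G X d n false w := by
    intro w hw
    have h1 := hX.rgT w n false hw
    have h2 := (hX.rgd w n false hw).2
    refine ⟨h1.1, h1.2, lt_of_le_of_lt h2 ?_⟩
    nlinarith
  have hcB : ∀ b ∈ Bk, ∃ w β, Cvr G X d n β w ∧ c w = b ∧ X.P.rg w ≠ some (n, false) := by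
    intro b hb
    rw [hBk, mem_image] at hb
    obtain ⟨w, hw, rfl⟩ := hb
    obtain ⟨⟨β, hβ⟩, h2⟩ := (mem_filter.1 hw).2
    exact ⟨w, β, hβ, rfl, h2⟩
  have hcE : ∀ b ∈ Ek, ∃ w, X.P.rg w = some (n, false) ∧ c w = b := by
    intro b hb
    rw [hEk, mem_image] at hb
    obtain ⟨w, hw, rfl⟩ := hb
    exact ⟨w, (mem_filter.1 hw).2, rfl⟩
  have hBC : Bk ⊆ Cvc G X d c n := by
    intro b hb
    obtain ⟨w, β, hw, rfl, -⟩ := hcB b hb
    unfold Cvc
    rw [mem_image]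
    exact ⟨w, by rw [mem_filter]; exact ⟨mem_univ _, β, hw⟩, rfl⟩
  have hEC : Ek ⊆ Cvc G X d c n := by
    intro b hb
    obtain ⟨w, hw, rfl⟩ := hcE b hb
    unfold Cvc
    rw [mem_image]
    exact ⟨w, by rw [mem_filter]; exact ⟨mem_univ _, false, hfr w hw⟩, rfl⟩
  have hCc : ((Cvc G X d c n).card : ℝ) ≤ δ' * d := by
    by_cases hB : X.P.ty n = Ty.B
    · exact (cvc_card hX.toPcD c (by omega) (hζ.trans (by norm_num)) (hX.bN n hB)).trans hθ
    · have h1 : Cvc G X d c n = ∅ := by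
        unfold Cvc
        rw [image_eq_empty, filter_eq_empty_iff]
        rintro w - ⟨β, hβ⟩
        exact hB hβ.2.1
      rw [h1]
      simp only [card_empty, Nat.cast_zero]
      positivity
  have hBkc : (Bk.card : ℝ) ≤ δ' * d := le_trans (by exact_mod_cast card_le_card hBC) hCc
  have hEkc : (Ek.card : ℝ) ≤ δ' * d := le_trans (by exact_mod_cast card_le_card hEC) hCc
  have hBr : Bk ⊆ range (d + 2) := by
    intro b hb
    obtain ⟨w, β, hw, rfl, -⟩ := hcB b hb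
    rw [mem_range]
    exact hR.clt w hw.1
  have hsmall : ∀ D : Finset ℕ, (D.card : ℝ) ≤ δ' * d → (∀ b ∈ D, ∃ w β, Cvr G X d n β w ∧ c w = b) →
      ∀ i, ∑ b ∈ D, |((x i b : ℤ) : ℝ)| ≤ δ * d := by
    intro D hD hcov i
    calc ∑ b ∈ D, |((x i b : ℤ) : ℝ)| ≤ ∑ _b ∈ D, 1000 * (C + 5) := by
          refine sum_le_sum fun b hb => ?_
          obtain ⟨w, β, hw, rfl⟩ := hcov b hb
          rw [hx]
          exact hR.cvt n β w hw i
      _ = (D.card : ℝ) * (1000 * (C + 5)) := by rw [sum_const, nsmul_eq_mul]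
      _ ≤ δ' * d * (1000 * (C + 5)) := mul_le_mul_of_nonneg_right hD (by linarith)
      _ = δ' * (1000 * (C + 5)) * d := by ring
      _ ≤ δ * d := mul_le_mul_of_nonneg_right hδ1 hdp.le
  have hB1 := hsmall Bk hBkc fun b hb => by
    obtain ⟨w, β, hw, h2, -⟩ := hcB b hb
    exact ⟨w, β, hw, h2⟩
  have hE1 := hsmall Ek hEkc fun b hb => by
    obtain ⟨w, hw, h2⟩ := hcE b hb
    exact ⟨w, false, hfr w hw, h2⟩
  have hmany : ∀ w β, Cvr G X d n β w → (S (X.sc n)).ζ / 1000 * d ≤ ((nb G w ∩ pV X.P n).card : ℝ) := by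
    intro w β hβ
    have h5 := hβ.2.2
    have h6 := side_large hX.toPcD hβ.2.1 (hX.bN n hβ.2.1) β
    have h7 : (sV X.P n β).card ≤ (sV X.P n β \ nb G w).card + (nb G w ∩ pV X.P n).card := by
      rw [← card_sdiff_add_card_inter (sV X.P n β) (nb G w)]
      refine Nat.add_le_add_left (card_le_card ?_) _
      intro y hy
      rw [mem_inter] at hy ⊢
      exact ⟨hy.2, sV_sub hy.1⟩
    have h8 : ((sV X.P n β).card : ℝ) ≤ ((sV X.P n β \ nb G w).card : ℝ) +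
      ((nb G w ∩ pV X.P n).card : ℝ) := by exact_mod_cast h7
    nlinarith
  have hBE : Disjoint Bk Ek := by
    rw [Finset.disjoint_left]
    intro b hb hb'
    obtain ⟨w, β, hw, h2, h3⟩ := hcB b hb
    obtain ⟨w', hw', h4⟩ := hcE b hb'
    have hne : w ≠ w' := by
      rintro rfl
      exact h3 hw'
    have hcv := hfr w' hw'
    exact hR.big n hw.2.1 w w' hw.1 hcv.1 hne (hmany w β hw) (hmany w' false hcv) (h2.trans h4.symm)
  have hQc : ∀ j, κ0 * d ≤ ((A.Q j).card : ℝ) := by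
    intro j
    rw [hκ0]
    exact (hA.Qc j).1
  have hBk4 : ((Cvc G X d c n).card : ℝ) ≤ κ0 / 4 * d :=
    hCc.trans (mul_le_mul_of_nonneg_right hδ2 hdp.le)
  obtain ⟨Gd, hGd⟩ : ∃ Gd : Bool → Finset ℕ, Gd = fun j => if X.P.ty n = Ty.B then
    (A.Q j \ Cvc G X d c n).filter
      (fun b => -((sV X.P n false).card : ℝ) ≤ 10 * d * ((x (!j) b : ℤ) : ℝ))
    else A.Q j \ Cvc G X d c n := ⟨_, rfl⟩
  have hGQ : ∀ j, Gd j ⊆ A.Q j \ Cvc G X d c n := by
    intro j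
    rw [hGd]
    beta_reduce
    split_ifs
    · exact filter_subset _ _
    · exact Subset.refl _
  have hGc : ∀ j, κ0 / 20 * d ≤ ((Gd j).card : ℝ) := by
    intro j
    rw [hGd]
    beta_reduce
    split_ifs with hB
    · refine good_B (q := 1 / 200) (A.Q j) (Cvc G X d c n) (x (!j)) (sV X.P n false).card d
        (by omega) le_rfl ?_ (hQc j) hBk4
      rw [hx]
      exact hR.neg n hB j
    · have h1 : ((A.Q j).card : ℝ) ≤ ((A.Q j \ Cvc G X d c n).card : ℝ) +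
          (Cvc G X d c n).card := by
        have h2 := card_le_card (show A.Q j ⊆ A.Q j \ Cvc G X d c n ∪ Cvc G X d c n by
          intro b hb
          rw [mem_union, mem_sdiff]
          tauto)
        exact_mod_cast h2.trans (card_union_le _ _)
      have h2 := hQc j
      nlinarith
  have hx0 : ∀ i, ∀ b ∈ A.Q i, x i b = 0 := by
    intro i b hb
    rw [hx]
    refine sgp_zero _ _ _ _ _ fun v hv hbv => ?_
    have h4 := hR.rQ n hn v
    have h5 : X.P.pt v.1 = i := hv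
    rw [h5] at h4
    exact Finset.disjoint_left.1 h4 hbv hb
  obtain ⟨w, hw⟩ : ∃ w : (({m : Fin N // SmC X n m} × (Bool × Bool × Bool × Bool)) ×
      (Fin (d + 3) × Option Bool)) → ℕ → ℝ, w = fun q b' =>
        wt G X t (Cvc G X d c n ∪ Cvc G X d c q.1.1.1)
          (match q.2.2 with
            | none => range (d + 2)
            | some l => prev q.1.1.1 l) q.2.1
          (qV X n q.1.2.1 q.1.2.2.1) (qV X q.1.1.1 q.1.2.2.2.1 q.1.2.2.2.2) b' := ⟨_, rfl⟩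
  have hw0 : ∀ q, ∀ b ∈ Cvc G X d c n, w q b = 0 := by
    intro q b hb
    rw [hw]
    beta_reduce
    unfold wt
    rw [if_pos (mem_union_left _ hb)]
  have hsel' := hsel _ Gd Bk Ek x w (C * d) ?_ ?_ ?_ hGc hBr hBE
    (hBkc.trans (mul_le_mul_of_nonneg_right hδ1' hdp.le)) hB1
    (hEkc.trans (mul_le_mul_of_nonneg_right hδ1' hdp.le)) hE1 ?_ ?_ ?_ ?_ ?_ ?_ ?_ ?_
    (fun q b hb => hw0 q b (hBC hb)) (fun q b hb => hw0 q b (hEC hb))
  · obtain ⟨Q, P2, hS, hT1, hT2⟩ := hsel'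
    have hP1 : range (d + 2) \ (P2 ∪ (Q false ∪ Q true)) = P1 d Q P2 := by
      unfold P1
      rw [union_comm P2]
    have hπ2 : π / 4 ≤ 1 / 2 := by linarith
    -- both classes
    have hboth : ∀ q l, π / 4 * ∑ b ∈ range (d + 2), w q b - C * d * (d : ℝ) ^ (4 / 5 : ℝ) ≤
        ∑ b ∈ cl d Q P2 l, w q b := by
      intro q l
      cases l with
      | true => exact hT1 q
      | false =>
        have h1 := hT2 q
        rw [hP1] at h1
        have h2 : 0 ≤ ∑ b ∈ range (d + 2), w q b := sum_nonneg fun b _ => by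
          rw [hw]
          exact wt_nonneg _ _ _ _ _ _ _ _ _
        have h3 : π / 4 * ∑ b ∈ range (d + 2), w q b ≤ 1 / 2 * ∑ b ∈ range (d + 2), w q b :=
          mul_le_mul_of_nonneg_right hπ2 h2
        have h4 : cl d Q P2 false = P1 d Q P2 := by simp [cl]
        rw [h4]
        linarith
    have hbb : ∀ b : ℕ, ∃ b1 : Fin (d + 3), ∀ (q q' : Finset V) D,
        nT G X t b q q' D = nT G X t b1 q q' D := by
      intro b
      by_cases hb : b < d + 2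
      · exact ⟨⟨b, by omega⟩, fun _ _ _ => rfl⟩
      · refine ⟨⟨d + 2, by omega⟩, fun q q' D => ?_⟩
        exact nT_big hR.lt (by omega) q q' D
    have hclr : ∀ l, cl d Q P2 l ⊆ range (d + 2) := by
      intro l
      cases l with
      | true => exact hS.Plt
      | false =>
        have h4 : cl d Q P2 false = P1 d Q P2 := by simp [cl]
        rw [h4]
        exact sdiff_subset
    refine ⟨Q, P2, ⟨fun i => (hS.QG i).trans ((hGQ i).trans sdiff_subset), hS.Plt, hS.QQ, hS.QP,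
      hS.Qc, hS.Pc, ?_, ?_, ?_, ?_, ?_, ?_, ?_⟩⟩
    · intro w1 β hw1 hr1
      refine hS.Bk ?_
      rw [hBk, mem_image]
      exact ⟨w1, by rw [mem_filter]; exact ⟨mem_univ _, ⟨β, hw1⟩, hr1⟩, rfl⟩
    · intro w1 hw1
      have h1 : c w1 ∈ Ek := by
        rw [hEk, mem_image]
        exact ⟨w1, by rw [mem_filter]; exact ⟨mem_univ _, hw1⟩, rfl⟩
      refine ⟨fun h2 => Finset.disjoint_left.1 hS.Ek h2 h1, fun i h2 => ?_⟩
      exact (mem_sdiff.1 (hGQ i (hS.QG i h2))).2 (hEC h1)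
    · intro i
      have h1 := hS.sm i
      rw [hx] at h1
      exact h1
    · intro i
      have h1 := hS.l1 i
      rw [hx] at h1
      exact h1
    · intro hB j b hb
      have h1 := hS.QG j hb
      rw [hGd] at h1
      beta_reduce at h1
      rw [if_pos hB, mem_filter, hx] at h1
      exact h1.2
    · intro m hm β β' i i' b l
      obtain ⟨b1, hb1⟩ := hbb b
      have h1 := hboth (((⟨m, hm⟩, (β, i, β', i')), (b1, none)) :
        ({m : Fin N // SmC X n m} × (Bool × Bool × Bool × Bool)) × (Fin (d + 3) × Option Bool)) l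
      rw [hw] at h1
      beta_reduce at h1
      rw [sum_wt, sum_wt] at h1
      simp only [inter_self] at h1
      rw [inter_eq_left.2 (hclr l)] at h1
      rw [hb1, hb1]
      exact h1
    · intro m hm β β' i i' b l l'
      obtain ⟨b1, hb1⟩ := hbb b
      have h1 := hboth (((⟨m, hm⟩, (β, i, β', i')), (b1, some l')) :
        ({m : Fin N // SmC X n m} × (Bool × Bool × Bool × Bool)) × (Fin (d + 3) × Option Bool)) l
      rw [hw] at h1
      beta_reduce at h1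
      rw [sum_wt, sum_wt] at h1
      rw [hb1, hb1]
      exact h1
  · exact fun i => (hGQ i).trans (sdiff_subset.trans (hA.Qlt i))
  · exact hA.QQ.mono ((hGQ false).trans sdiff_subset) ((hGQ true).trans sdiff_subset)
  · intro i
    exact Finset.disjoint_of_subset_left (hGQ i)
      (Finset.disjoint_of_subset_right hBC sdiff_disjoint)
  · exact fun i b hb => hx0 i b ((hGQ i).trans sdiff_subset hb)
  · intro i
    rw [hx]
    exact (hR.sup n hn i).trans (mul_le_mul_of_nonneg_right ha hdp.le)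
  · intro i
    rw [hx, sum_piece hR.lt hR.inj hn i]
    exact (hX.thq n hn i).trans (mul_le_mul_of_nonneg_right hε hdp.le)
  · intro i
    rw [hx]
    exact l1_piece hR.toNuX hd hn (by norm_num) (pV_card hX.toPcD hC0 n) i
  · have h1 := smc_card hX.toPcD n
    have h2 : (Fintype.card (({m : Fin N // SmC X n m} × (Bool × Bool × Bool × Bool)) ×
        (Fin (d + 3) × Option Bool)) : ℝ) =
        (Fintype.card {m : Fin N // SmC X n m} : ℝ) * (48 * (d + 3)) := by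
      rw [Fintype.card_prod, Fintype.card_prod, Fintype.card_prod, Fintype.card_prod,
        Fintype.card_prod, Fintype.card_prod, Fintype.card_fin, Fintype.card_option,
        Fintype.card_bool]
      push_cast
      ring
    rw [h2]
    refine le_trans (mul_le_mul_of_nonneg_right ?_ (by positivity)) hM
    exact_mod_cast h1
  · intro q b _
    rw [hw]
    exact wt_nonneg _ _ _ _ _ _ _ _ _
  · intro q b _
    rw [hw]
    beta_reduce
    unfold wt
    have h0 : (0 : ℝ) ≤ C * d := by positivity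
    split_ifs
    · exact h0
    · refine le_trans ?_ (pV_card hX.toPcD hC0 n)
      exact_mod_cast (nT_one hR.inj _ _ _ _).trans (card_le_card qV_sub)
    · exact h0
  · positivity

end Pool.Agent.Work.MP_db9399_slp_helper59
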