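import Pool.Agent.Work.MP_db9399_slp_helper59.Sel2

/-!
# MP_db9399, all scales, SELP (helper59): all pieces
-/

set_option autoImplicit false

namespace Pool.Agent.Work.MP_db9399_slp_helper59

open Finset Classical
open Pool.Agent.Work.MP_db9399_all (nb)
open Pool.Agent.Work.MP_db9399_lt (us)
open Pool.Agent.Work.MP_db9399_da hiding qV
open Pool.Agent.Work.MP_db9399_xf
open Pool.Agent.Work.MP_db9399_iv_helper38 (SelN selx ev_rpow)

universe u

/-- choice one after another -/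
theorem rec_fin {N : ℕ} {α : Type*} (dflt : α) (R : Fin N → (Fin N → α) → α → Prop)
    (h : ∀ n f, ∃ a, R n f a) :
    ∃ f : Fin N → α, ∀ n, R n (fun m => if m < n then f m else dflt) (f n) := by
  have key : ∀ k : ℕ, ∃ f : Fin N → α, ∀ n : Fin N, n.val < k →
      R n (fun m => if m < n then f m else dflt) (f n) := by
    intro k
    induction k with
    | zero => exact ⟨fun _ => dflt, fun n hn => absurd hn (by omega)⟩
    | succ k ih =>
      obtain ⟨f, hf⟩ := ih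
      by_cases hk : k < N
      · obtain ⟨a, ha⟩ := h ⟨k, hk⟩ (fun m => if m < ⟨k, hk⟩ then f m else dflt)
        refine ⟨Function.update f ⟨k, hk⟩ a, fun n hn => ?_⟩
        have h1 : ∀ m : Fin N, m.val < k → Function.update f ⟨k, hk⟩ a m = f m := by
          intro m hm
          rw [Function.update_of_ne]
          intro he
          rw [he] at hm
          simp at hm
        by_cases hnk : n.val < k
        · have h2 := hf n hnk
          rw [h1 n hnk]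
          have h3 : (fun m => if m < n then Function.update f ⟨k, hk⟩ a m else dflt) =
              fun m => if m < n then f m else dflt := by
            funext m
            by_cases hm : m < n
            · rw [if_pos hm, if_pos hm, h1 m (lt_trans hm hnk)]
            · rw [if_neg hm, if_neg hm]
          rw [h3]
          exact h2
        · have h2 : n = ⟨k, hk⟩ := Fin.ext (by simp; omega)
          subst h2
          rw [Function.update_self]
          have h3 : (fun m => if m < (⟨k, hk⟩ : Fin N) then Function.update f ⟨k, hk⟩ a m else dflt) =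
              fun m => if m < (⟨k, hk⟩ : Fin N) then f m else dflt := by
            funext m
            by_cases hm : m < (⟨k, hk⟩ : Fin N)
            · rw [if_pos hm, if_pos hm, h1 m hm]
            · rw [if_neg hm, if_neg hm]
          rw [h3]
          exact ha
      · exact ⟨f, fun n _ => hf n (lt_of_lt_of_le n.2 (not_lt.1 hk))⟩
  obtain ⟨f, hf⟩ := key N
  exact ⟨f, fun n => hf n n.2⟩

theorem cl_sub {d : ℕ} {Q : Bool → Finset ℕ} {P2 : Finset ℕ} (h : P2 ⊆ range (d + 2)) (l : Bool) :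
    cl d Q P2 l ⊆ range (d + 2) := by
  cases l with
  | true => exact h
  | false =>
    have h4 : cl d Q P2 false = P1 d Q P2 := by simp [cl]
    rw [h4]
    exact sdiff_subset

/-- all pieces -/
theorem all_pieces {V : Type u} [Fintype V] {N J : ℕ} {πk C g z τ e θk θ' η a : ℝ} {M : ℕ}
    {S : Fin J → Scl} {κ0 : ℝ} {ξ δ δ' x : Fin J → ℝ} {G : SimpleGraph V} {d : ℕ}
    {X : XD V N J} {A : PalX} {t : V → V → ℕ} {c : V → ℕ} (hC : 1 ≤ C)
    (hκ0 : κ0 = (1 - 3 * πk) / 100) (hκ0p : 0 < κ0) (hπ : ∀ s, 0 < (S s).π)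
    (hπ1 : ∀ s, (S s).π ≤ 1 / 100)
    (hsel : ∀ s, SelxP (S s).π (S s).κ κ0 (ξ s) (12 + C) (δ s) d) (hd : 1 ≤ d)
    (hM : (M : ℝ) * (48 * (d + 3)) ≤ (d : ℝ) ^ (2 : ℝ)) (hδ' : ∀ s, 0 < δ' s)
    (hδ1 : ∀ s, δ' s * (1000 * (C + 5)) ≤ δ s) (hδ2 : ∀ s, δ' s ≤ κ0 / 4)
    (hX : PcX C g z θk θ' η a M S G d X) (hA : PalXP πk A d)
    (hR : RgX C a η τ e S G d X A t c)
    (hε : ∀ s, (S s).ε ≤ ξ s / 4) (hζ : ∀ s, (S s).ζ ≤ 1 / 1000) (ha : ∀ s, a ≤ δ s)
    (hθ : ∀ s, (S s).θ * d + 2 * a * d ≤ δ' s * d)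
    (hξx : ∀ s, ξ s ≤ x s) (hlN : ∀ s, 2 * (S s).π * (12 + C) + ξ s ≤ g / 400)
    (hlB : ∀ s, 2 * (S s).π * (12 + C) + ξ s ≤ min (S s).ρ (1 / 1000) / 200)
    (hE : 2 * (C * d * (d : ℝ) ^ (4 / 5 : ℝ)) ≤ (d : ℝ) ^ (39 / 20 : ℝ)) :
    ∃ (Qn : Fin N → Bool → Finset ℕ) (P2n : Fin N → Finset ℕ),
      SelX g x S G d X t c Qn P2n := by
  have hdp : (0 : ℝ) < d := by exact_mod_cast (show 0 < d by omega)
  set E : ℝ := C * d * (d : ℝ) ^ (4 / 5 : ℝ) with hEdef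
  have hE0 : 0 ≤ E := by positivity
  have hstage : ∀ (n : Fin N) (h : Fin N → (Bool → Finset ℕ) × Finset ℕ),
      ∃ q : (Bool → Finset ℕ) × Finset ℕ, (X.P.ty n = Ty.N ∨ X.P.ty n = Ty.B) →
        StP (S (X.sc n)).π (S (X.sc n)).κ (ξ (X.sc n)) (12 + C) E G d X A t c n
          (fun m l => cl d (h m).1 (h m).2 l) q.1 q.2 := by
    intro n h
    by_cases hn : X.P.ty n = Ty.N ∨ X.P.ty n = Ty.B
    · obtain ⟨Q, P2, hQ⟩ := stage hC hκ0 hκ0p (hπ _) (hπ1 _) (hsel (X.sc n)) hd hM (hδ' _) (hδ1 _)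
        (hδ2 _) hX hA hR hn (hε _) (hζ _) (ha _) (hθ _)
        (fun m l => cl d (h m).1 (h m).2 l)
      exact ⟨(Q, P2), fun _ => hQ⟩
    · exact ⟨(fun _ => ∅, ∅), fun h => absurd h hn⟩
  obtain ⟨f, hf⟩ := rec_fin (((fun _ => ∅), ∅) : (Bool → Finset ℕ) × Finset ℕ) _ hstage
  have hsc : ∀ n m, SmC X n m → X.sc n = X.sc m := by
    intro n m h
    obtain ⟨v, w, h1, h2, h3, h4, h5⟩ := h
    have h6 := hX.scq v w h1 h2 h5
    rw [h3, h4] at h6
    exact h6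
  have hcls : ∀ n, (X.P.ty n = Ty.N ∨ X.P.ty n = Ty.B) → ∀ l,
      cl d (f n).1 (f n).2 l ⊆ range (d + 2) := fun n hn l => cl_sub (hf n hn).Plt l
  have two : ∀ n m, X.P.ty n = Ty.B → X.P.ty m = Ty.B → SmC X n m → m < n →
      ∀ β β' i i' b A B, (S (X.sc n)).π ^ 2 / 64 *
      nT G X t b (qV X n β i) (qV X m β' i') (range (d + 2) \ (Cvc G X d c n ∪ Cvc G X d c m)) ≤
      nT G X t b (qV X n β i) (qV X m β' i')
        ((cl d (f n).1 (f n).2 A ∩ cl d (f m).1 (f m).2 B) \ (Cvc G X d c n ∪ Cvc G X d c m)) +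
        (d : ℝ) ^ (39 / 20 : ℝ) := by
    intro n m hn hm hs hlt β β' i i' b A B
    have h1 := (hf m (Or.inr hm)).t1 n (SmC.symm' hs) β' β i' i b B
    have h2 := (hf n (Or.inr hn)).t2 m hs β β' i i' b A B
    beta_reduce at h2
    rw [if_pos hlt, inter_eq_right.2 (hcls m (Or.inr hm) B)] at h2
    rw [nT_swap hR.sym, nT_swap hR.sym b (qV X m β' i'), union_comm (Cvc G X d c m),
      ← hsc n m hs] at h1
    set K := Cvc G X d c n ∪ Cvc G X d c m
    set T0 : ℝ := ((nT G X t b (qV X n β i) (qV X m β' i') (range (d + 2) \ K) : ℕ) : ℝ)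
    set T1 : ℝ := ((nT G X t b (qV X n β i) (qV X m β' i') (cl d (f m).1 (f m).2 B \ K) : ℕ) : ℝ)
    set T2 : ℝ := ((nT G X t b (qV X n β i) (qV X m β' i')
        ((cl d (f n).1 (f n).2 A ∩ cl d (f m).1 (f m).2 B) \ K) : ℕ) : ℝ)
    set π := (S (X.sc n)).π
    have hp := hπ (X.sc n)
    have hp1 := hπ1 (X.sc n)
    have hT0 : 0 ≤ T0 := Nat.cast_nonneg _
    have h3 : π / 4 * (π / 4 * T0 - E) ≤ π / 4 * T1 := mul_le_mul_of_nonneg_left h1 (by positivity)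
    have h4 : π / 4 * E ≤ E := by
      have : π / 4 ≤ 1 := by
        have h5 : π ≤ 1 / 100 := hp1
        linarith
      nlinarith
    have h5 : 0 ≤ π ^ 2 * T0 := by positivity
    have h6 : π ^ 2 / 64 * T0 = π ^ 2 * T0 / 64 := by ring
    have h7 : π / 4 * (π / 4 * T0 - E) = π ^ 2 * T0 / 16 - π / 4 * E := by ring
    rw [h6]
    linarith
  refine ⟨fun n => (f n).1, fun n => (f n).2, ?_, ?_, ?_, ?_, ?_, ?_, ?_, ?_, ?_, ?_, ?_, ?_, ?_,
    ?_⟩
  · exact fun n hn i => ((hf n hn).QA i).trans (hA.Qlt i)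
  · exact fun n hn => (hf n hn).Plt
  · exact fun n hn => (hf n hn).QQ
  · exact fun n hn => (hf n hn).QP
  · exact fun n hn => (hf n hn).Qc
  · exact fun n hn => (hf n hn).Pc
  · exact fun n hn v => Finset.disjoint_of_subset_right ((hf n hn).QA _) (hR.rQ n hn v)
  · exact fun n hn i => ((hf n hn).sm i).trans (mul_le_mul_of_nonneg_right (hξx _) hdp.le)
  · exact fun n hn i => ((hf n (Or.inl hn)).l1 i).trans
      (mul_le_mul_of_nonneg_right (hlN _) hdp.le)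
  · exact fun n hn i => ((hf n (Or.inr hn)).l1 i).trans
      (mul_le_mul_of_nonneg_right (hlB _) hdp.le)
  · exact fun n hn => (hf n (Or.inr hn)).ng hn
  · intro n w hw
    have h1 := hX.rgT w n true hw
    have h2 := hX.rgd w n true hw
    have h3 := hζ (X.sc n)
    have h4 : Cvr G X d n true w := by
      refine ⟨h1.1, h1.2, lt_of_le_of_lt h2.2 ?_⟩
      nlinarith
    refine (hf n (Or.inr h1.2)).Bk w true h4 ?_
    rw [hw]
    simp
  · intro n w hw
    have h1 := hX.rgT w n false hw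
    exact (hf n (Or.inr h1.2)).Ek w hw
  · intro n m hn hm hs β β' i i' b A B hAB
    rw [cls_eq, cls_eq]
    rcases lt_trichotomy m n with hlt | heq | hlt
    · exact two n m hn hm hs hlt β β' i i' b A B
    · subst heq
      have h0 := hAB rfl
      subst h0
      have h1 := (hf m (Or.inr hm)).t1 m hs β β' i i' b A
      rw [inter_self]
      set K := Cvc G X d c m ∪ Cvc G X d c m
      set T0 : ℝ := ((nT G X t b (qV X m β i) (qV X m β' i') (range (d + 2) \ K) : ℕ) : ℝ)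
      set π := (S (X.sc m)).π
      have hp := hπ (X.sc m)
      have hp1 := hπ1 (X.sc m)
      have hT0 : 0 ≤ T0 := Nat.cast_nonneg _
      have h3 : π ^ 2 / 64 * T0 ≤ π / 4 * T0 := by
        refine mul_le_mul_of_nonneg_right ?_ hT0
        have h5 : π ≤ 1 / 100 := hp1
        have h6 : 0 < π := hp
        nlinarith
      linarith
    · have h1 := two m n hm hn (SmC.symm' hs) hlt β' β i' i b B A
      rw [nT_swap hR.sym, nT_swap hR.sym b (qV X m β' i'), union_comm (Cvc G X d c m),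
        ← hsc n m hs, inter_comm] at h1
      exact h1

/-- SELP. -/
theorem stmt_SELP : Stmt_SELP.{u} := by
  intro πk C g z τ e M x hπk1 hπk2 hC hg hg1 hz hz1 hτ hτe hx
  obtain ⟨k0, hk0⟩ : ∃ k0 : ℝ, k0 = (1 - 3 * πk) / 100 := ⟨_, rfl⟩
  have hk0p : 0 < k0 := by rw [hk0]; linarith
  have hk01 : k0 ≤ 1 := by rw [hk0]; linarith
  have hΛ : 0 < 12 + C := by linarith
  have hsel : ∀ π κ ξ : ℝ, ∃ (δ : ℝ) (d0 : ℕ), 0 < δ ∧ (0 < π → π ≤ 1 / 100 → 0 < κ →
      κ ≤ k0 * π / 1000 → 0 < ξ → ∀ d, d0 ≤ d → SelxP π κ k0 ξ (12 + C) δ d) := by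
    intro π κ ξ
    by_cases h : 0 < π ∧ π ≤ 1 / 100 ∧ 0 < κ ∧ κ ≤ k0 * π / 1000 ∧ 0 < ξ
    · obtain ⟨δ, d0, hδ, hS⟩ := selx.{0} π κ k0 ξ (12 + C) 2 h.1 h.2.1 hk0p hk01 h.2.2.1 h.2.2.2.1
        h.2.2.2.2 hΛ.le
      refine ⟨δ, d0, hδ, fun _ _ _ _ _ d hd => ?_⟩
      intro τ _ G Bk Ek x w W
      exact hS d G Bk Ek x w W hd
    · exact ⟨1, 0, one_pos, fun h1 h2 h3 h4 h5 => absurd ⟨h1, h2, h3, h4, h5⟩ h⟩
  choose δf d0f hδf hSf using hsel
  obtain ⟨bnd, hbnd⟩ : ∃ bnd : ℝ → ℝ, bnd = fun ρ => min (g / 400) (min ρ (1 / 1000) / 200) :=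
    ⟨_, rfl⟩
  have hbndp : ∀ ρ, 0 < ρ → 0 < bnd ρ := by
    intro ρ hρ
    rw [hbnd]
    positivity
  obtain ⟨ξf, hξf⟩ : ∃ ξf : ℝ → ℝ → ℝ → ℝ, ξf = fun ρ π κ => min (x ρ π κ) (bnd ρ / 2) := ⟨_, rfl⟩
  have hξp : ∀ ρ π κ, 0 < ρ → 0 < π → 0 < κ → 0 < ξf ρ π κ := by
    intro ρ π κ h1 h2 h3
    rw [hξf]
    exact lt_min (hx ρ π κ h1 h2 h3) (by have := hbndp ρ h1; linarith)
  obtain ⟨δ', hδ'⟩ : ∃ δ' : ℝ → ℝ → ℝ → ℝ, δ' = fun ρ π κ =>
    min (δf π κ (ξf ρ π κ) / (1000 * (C + 5))) (k0 / 4) := ⟨_, rfl⟩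
  have hδ'p : ∀ ρ π κ, 0 < δ' ρ π κ := by
    intro ρ π κ
    rw [hδ']
    have h1 := hδf π κ (ξf ρ π κ)
    exact lt_min (by positivity) (by linarith)
  refine ⟨⟨fun ρ => min (1 / 100) (bnd ρ / (4 * (12 + C))), fun _ π => k0 * π / 1000,
    fun ρ π κ => ξf ρ π κ / 4, fun _ _ _ _ => 1 / 1000, fun ρ π κ _ _ => δ' ρ π κ / 2⟩,
    ⟨?_, ?_, ?_, ?_, ?_⟩, ?_⟩
  · intro ρ hρ
    have := hbndp ρ hρ
    exact lt_min (by norm_num) (by positivity)
  · intro ρ π _ hπ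
    show 0 < k0 * π / 1000
    positivity
  · intro ρ π κ h1 h2 h3
    have := hξp ρ π κ h1 h2 h3
    show 0 < ξf ρ π κ / 4
    linarith
  · intro ρ π κ ε _ _ _ _
    show (0 : ℝ) < 1 / 1000
    norm_num
  · intro ρ π κ ε ζ _ _ _ _ _
    have := hδ'p ρ π κ
    show 0 < δ' ρ π κ / 2
    linarith
  intro J S c' hS hc'
  have hρ := fun s => (hS s).ρ
  have hπ := fun s => (hS s).π
  have hκ := fun s => (hS s).κ
  have hε := fun s => (hS s).ε
  have hζ := fun s => (hS s).ζ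
  have hθ := fun s => (hS s).θ
  dsimp only at hπ hκ hε hζ hθ
  have h1 : Filter.Tendsto (fun d : ℕ => (d : ℝ)) Filter.atTop Filter.atTop :=
    tendsto_natCast_atTop_atTop
  have ev1 : ∀ᶠ d : ℕ in Filter.atTop, ∀ s : Fin J,
      d0f (S s).π (S s).κ (ξf (S s).ρ (S s).π (S s).κ) ≤ d :=
    Filter.eventually_all.2 fun s => Filter.eventually_ge_atTop _
  have ev2 : ∀ᶠ d : ℕ in Filter.atTop, ∀ s : Fin J,
      (d : ℝ) ^ (-c') ≤ δ' (S s).ρ (S s).π (S s).κ / 4 * (d : ℝ) ^ (0 : ℝ) :=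
    Filter.eventually_all.2 fun s => ev_rpow (by linarith)
      (by have := hδ'p (S s).ρ (S s).π (S s).κ; linarith)
  have ev3 := ev_rpow (a := 9 / 5) (b := 39 / 20) (by norm_num) (ε := 1 / (2 * C)) (by positivity)
  have ev4 := h1.eventually_ge_atTop (max 3 (96 * (M : ℝ)))
  obtain ⟨d0, hd0⟩ := Filter.eventually_atTop.1 (((ev1.and ev2).and ev3).and ev4)
  refine ⟨d0, ?_⟩
  intro V _ N G d X A t c θk θ' η hd hX hA hR
  obtain ⟨⟨⟨e1, e2⟩, e3⟩, e4⟩ := hd0 d hd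
  have hd3 : (3 : ℝ) ≤ d := (le_max_left _ _).trans e4
  have hdM : 96 * (M : ℝ) ≤ d := (le_max_right _ _).trans e4
  have hdp : (0 : ℝ) < d := by linarith
  have hd1 : 1 ≤ d := by
    have : (1 : ℝ) ≤ d := by linarith
    exact_mod_cast this
  have hb : ∀ s, 2 * (S s).π * (12 + C) + ξf (S s).ρ (S s).π (S s).κ ≤ bnd (S s).ρ := by
    intro s
    have g1 : (S s).π ≤ bnd (S s).ρ / (4 * (12 + C)) := (hπ s).2.trans (min_le_right _ _)
    rw [le_div_iff₀ (by positivity)] at g1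
    have g2 : ξf (S s).ρ (S s).π (S s).κ ≤ bnd (S s).ρ / 2 := by
      rw [hξf]
      exact min_le_right _ _
    linarith
  refine all_pieces (κ0 := k0) (ξ := fun s => ξf (S s).ρ (S s).π (S s).κ)
    (δ := fun s => δf (S s).π (S s).κ (ξf (S s).ρ (S s).π (S s).κ))
    (δ' := fun s => δ' (S s).ρ (S s).π (S s).κ) hC hk0 hk0p (fun s => (hπ s).1)
    (fun s => (hπ s).2.trans (min_le_left _ _)) ?_ hd1 ?_ (fun s => hδ'p _ _ _) ?_ ?_ hX hA hR
    (fun s => (hε s).2) (fun s => (hζ s).2) ?_ ?_ ?_ ?_ ?_ ?_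
  · intro s
    exact hSf _ _ _ (hπ s).1 ((hπ s).2.trans (min_le_left _ _)) (hκ s).1 (hκ s).2
      (hξp _ _ _ (hρ s).1 (hπ s).1 (hκ s).1) d (e1 s)
  · have h2 : (d : ℝ) ^ (2 : ℝ) = d ^ 2 := by
      rw [← Real.rpow_natCast]
      norm_num
    rw [h2]
    have h3 : (0 : ℝ) ≤ M := Nat.cast_nonneg _
    nlinarith
  · intro s
    have h2 : δ' (S s).ρ (S s).π (S s).κ ≤
        δf (S s).π (S s).κ (ξf (S s).ρ (S s).π (S s).κ) / (1000 * (C + 5)) := by
      rw [hδ']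
      exact min_le_left _ _
    rwa [le_div_iff₀ (by positivity)] at h2
  · intro s
    rw [hδ']
    exact min_le_right _ _
  · intro s
    have h2 := e2 s
    rw [Real.rpow_zero, mul_one] at h2
    have h3 : δ' (S s).ρ (S s).π (S s).κ ≤
        δf (S s).π (S s).κ (ξf (S s).ρ (S s).π (S s).κ) / (1000 * (C + 5)) := by
      rw [hδ']
      exact min_le_left _ _
    rw [le_div_iff₀ (by positivity)] at h3
    have h4 := hδ'p (S s).ρ (S s).π (S s).κ
    have h5 : δ' (S s).ρ (S s).π (S s).κ / 4 ≤ δ' (S s).ρ (S s).π (S s).κ * (1000 * (C + 5)) := by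
      nlinarith
    linarith
  · intro s
    have h2 := e2 s
    rw [Real.rpow_zero, mul_one] at h2
    have h3 := (hθ s).2
    beta_reduce
    have h4 : (S s).θ + 2 * (d : ℝ) ^ (-c') ≤ δ' (S s).ρ (S s).π (S s).κ := by linarith
    calc (S s).θ * d + 2 * (d : ℝ) ^ (-c') * d = ((S s).θ + 2 * (d : ℝ) ^ (-c')) * d := by ring
      _ ≤ _ := mul_le_mul_of_nonneg_right h4 hdp.le
  · intro s
    rw [hξf]
    exact min_le_left _ _
  · intro s
    refine (hb s).trans ?_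
    rw [hbnd]
    exact min_le_left _ _
  · intro s
    refine (hb s).trans ?_
    rw [hbnd]
    exact min_le_right _ _
  · have h2 : (d : ℝ) * (d : ℝ) ^ (4 / 5 : ℝ) = (d : ℝ) ^ (9 / 5 : ℝ) := by
      nth_rewrite 1 [← Real.rpow_one (d : ℝ)]
      rw [← Real.rpow_add hdp]
      norm_num
    rw [mul_assoc C, h2]
    have h3 : 2 * (C * (d : ℝ) ^ (9 / 5 : ℝ)) = (2 * C) * (d : ℝ) ^ (9 / 5 : ℝ) := by ring
    rw [h3]
    have h4 := mul_le_mul_of_nonneg_left e3 (show 0 ≤ 2 * C by linarith)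
    refine h4.trans (le_of_eq ?_)
    have h5 : 2 * C ≠ 0 := by linarith
    field_simp

end Pool.Agent.Work.MP_db9399_slp_helper59
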